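import Pool.Agent.BOG.Stmts

set_option autoImplicit false

namespace Pool.Agent.BOG.H52

open Polynomial Finset

universe v

theorem der : DerStmt.{v} := by
  intro K _ n m c ν j θ hθ
  obtain ⟨h1, h2⟩ := hθ
  refine ⟨fun a => ?_, fun P => ?_⟩
  · have h3 : degree (θ a) < ((j + 1 : ℕ) : WithBot ℕ) := mem_degreeLT.mp (h1 a)
    have h4 : degree (derivative (θ a)) < (j : WithBot ℕ) := by
      by_cases h0 : θ a = 0
      · rw [h0, derivative_zero, degree_zero]
        exact WithBot.bot_lt_coe j
      · refine lt_of_lt_of_le (degree_derivative_lt h0) ?_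
        rw [degree_eq_natDegree h0] at h3 ⊢
        have h5 : (θ a).natDegree < j + 1 := by exact_mod_cast h3
        exact_mod_cast Nat.lt_succ_iff.mp h5
    rw [mem_degreeLT]
    change ((∏ P, (X - C (m P))) * derivative (θ a)).degree < ((j + n : ℕ) : WithBot ℕ)
    by_cases h0 : derivative (θ a) = 0
    · rw [h0, mul_zero, degree_zero]
      exact WithBot.bot_lt_coe _
    · have h5 : degree (∏ P, (X - C (m P))) = (n : WithBot ℕ) := by
        rw [degree_prod]
        simp
      rw [degree_mul, h5, degree_eq_natDegree h0]
      rw [degree_eq_natDegree h0] at h4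
      have h6 : (derivative (θ a)).natDegree < j := by exact_mod_cast h4
      have h7 : n + (derivative (θ a)).natDegree < j + n := by omega
      exact_mod_cast h7
  · have h3 := h2 P
    have h4 : dot1 (m P) (c P) (fun a => (∏ P, (X - C (m P))) * derivative (θ a)) =
        (∏ P, (X - C (m P))) * derivative (dot1 (m P) (c P) θ) := by
      simp only [dot1, derivative_sub, derivative_mul, derivative_C, zero_mul, zero_add]
      ring
    rw [h4]
    have h5 : (X - C (m P)) ^ (ν - 1) ∣ derivative (dot1 (m P) (c P) θ) :=
      pow_sub_one_dvd_derivative_of_pow_dvd h3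
    have h6 : (X - C (m P)) ∣ ∏ P, (X - C (m P)) :=
      Finset.dvd_prod_of_mem (fun P => X - C (m P)) (Finset.mem_univ P)
    cases ν with
    | zero => rw [pow_zero]; exact one_dvd _
    | succ k =>
      rw [pow_succ']
      exact mul_dvd_mul h6 h5

end Pool.Agent.BOG.H52
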